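import Mathlib

/-! Commutative algebra for local parameters at smooth points. -/

open IsLocalRing

namespace Pool.Agent.MP_52bf41_ag.H24

/-- A Noetherian local ring with completion `k[[X]]` is a domain with nonzero principal maximal
ideal. -/
theorem dvr_of_completion {O k : Type} [CommRing O] [IsLocalRing O] [IsNoetherianRing O] [Field k]
    (e : AdicCompletion (maximalIdeal O) O ≃+* PowerSeries k) :
    IsDomain O ∧ ∃ t : O, t ≠ 0 ∧ maximalIdeal O = Ideal.span {t} := by
  have hinj : Function.Injective (algebraMap O (AdicCompletion (maximalIdeal O) O)) :=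
    AdicCompletion.of_injective (maximalIdeal O) O
  refine ⟨(e.injective.comp hinj).isDomain
    ((e : AdicCompletion (maximalIdeal O) O →+* PowerSeries k).comp (algebraMap O _)), ?_⟩
  have h1 : (maximalIdeal (PowerSeries k)).spanFinrank = 1 := by
    rw [PowerSeries.maximalIdeal_eq_span_X]
    exact Submodule.spanFinrank_singleton PowerSeries.X_ne_zero
  have h2 : (maximalIdeal (AdicCompletion (maximalIdeal O) O)).map e =
      maximalIdeal (PowerSeries k) :=
    IsLocalRing.eq_maximalIdeal inferInstance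
  have h3 := Ideal.spanFinrank_map_eq_of_ringEquiv e
    (maximalIdeal (AdicCompletion (maximalIdeal O) O))
  rw [h2, h1, AdicCompletion.spanFinrank_maximalIdeal_eq] at h3
  obtain ⟨⟨t, ht⟩, hne⟩ := (Submodule.spanFinrank_eq_one_iff _).1 h3.symm
  refine ⟨t, fun h0 => hne ?_, ht⟩
  rw [ht, h0]
  simp

/-- A generator of the maximal ideal of the localisation spreads out to a neighbourhood. -/
theorem spread {B O : Type} [CommRing B] [IsNoetherianRing B] (P : Ideal B) [P.IsPrime]
    [CommRing O] [Algebra B O] [IsLocalization.AtPrime O P] [IsLocalRing O] [IsDomain O] {t : O}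
    (ht0 : t ≠ 0) (ht : maximalIdeal O = Ideal.span {t}) :
    ∃ f s : B, f ∉ P ∧ s ∈ P ∧ (∀ b ∈ P, f * b ∈ Ideal.span {s}) ∧ ∀ b, s * b = 0 → f * b = 0 := by
  obtain ⟨⟨s, u⟩, hs⟩ := IsLocalization.surj P.primeCompl t
  have hu : IsUnit (algebraMap B O u) := IsLocalization.map_units O u
  simp only at hs
  have hs0 : algebraMap B O s ≠ 0 := by
    rw [← hs]
    exact mul_ne_zero ht0 hu.ne_zero
  have hm : maximalIdeal O = Ideal.span {algebraMap B O s} := by
    rw [ht, ← hs, Ideal.span_singleton_mul_right_unit hu]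
  have hsP : s ∈ P := by
    rw [← IsLocalization.AtPrime.to_map_mem_maximal_iff O P s, hm]
    exact Ideal.mem_span_singleton_self _
  -- every element of `P` is a multiple of `s` after multiplying by an element outside `P`
  have h1 : ∀ b ∈ P, ∃ f, f ∉ P ∧ f * b ∈ Ideal.span {s} := fun b hb => by
    have hb' : algebraMap B O b ∈ (Ideal.span {s}).map (algebraMap B O) := by
      rw [Ideal.map_span, Set.image_singleton, ← hm]
      exact (IsLocalization.AtPrime.to_map_mem_maximal_iff O P b).2 hb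
    obtain ⟨m, hm, hmb⟩ :=
      (IsLocalization.algebraMap_mem_map_algebraMap_iff P.primeCompl O _ b).1 hb'
    exact ⟨m, hm, hmb⟩
  have h2 : ∀ b, s * b = 0 → ∃ f, f ∉ P ∧ f * b = 0 := fun b hb => by
    have : algebraMap B O b = 0 := by
      have h := congrArg (algebraMap B O) hb
      rw [map_mul, map_zero] at h
      exact (mul_eq_zero.1 h).resolve_left hs0
    obtain ⟨m, hm⟩ := (IsLocalization.map_eq_zero_iff P.primeCompl O b).1 this
    exact ⟨m, m.2, hm⟩
  have key : ∀ I J : Ideal B, (∀ b ∈ I, ∃ f, f ∉ P ∧ f * b ∈ J) →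
      ∃ f, f ∉ P ∧ ∀ b ∈ I, f * b ∈ J := fun I J h => by
    obtain ⟨T, hT⟩ := IsNoetherian.noetherian I
    choose! g hg using h
    refine ⟨∏ b ∈ T, g b, ?_, fun b hb => ?_⟩
    · exact P.primeCompl.prod_mem fun b hb => (hg b (hT ▸ Submodule.subset_span hb)).1
    · rw [← hT] at hb
      induction hb using Submodule.span_induction with
      | mem x hx =>
        classical
        rw [← Finset.prod_erase_mul T g hx, mul_assoc]
        exact J.mul_mem_left _ (hg x (hT ▸ Submodule.subset_span hx)).2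
      | zero => simp
      | add x y _ _ hx hy => rw [mul_add]; exact J.add_mem hx hy
      | smul a x _ hx => rw [smul_eq_mul, mul_left_comm]; exact J.mul_mem_left _ hx
  obtain ⟨f, hf, hf'⟩ := key P _ h1
  obtain ⟨g, hg, hg'⟩ := key (LinearMap.ker (LinearMap.mul B B s)) ⊥ fun b hb => h2 b hb
  refine ⟨f * g, s, P.primeCompl.mul_mem hf hg, hsP, fun b hb => ?_, fun b hb => ?_⟩
  · rw [mul_comm f, mul_assoc]
    exact Ideal.mul_mem_left _ _ (hf' b hb)
  · rw [mul_assoc, show g * b = 0 from hg' b hb, mul_zero]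

/-- Nullstellensatz: every element is a constant modulo a maximal ideal. -/
theorem exists_const {k B : Type} [Field k] [IsAlgClosed k] [CommRing B] (φ : k →+* B)
    (hφ : φ.FiniteType) (P : Ideal B) [P.IsMaximal] (b : B) : ∃ a, b - φ a ∈ P := by
  algebraize [φ]
  let _ : Field (B ⧸ P) := Ideal.Quotient.field P
  have : Module.Finite k (B ⧸ P) := finite_of_finite_type_of_isJacobsonRing k (B ⧸ P)
  obtain ⟨a, ha⟩ := (IsAlgClosed.algebraMap_bijective_of_isIntegral (k := k) (K := B ⧸ P)).2
    (Ideal.Quotient.mk P b)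
  exact ⟨a, Ideal.Quotient.eq.1 ha.symm⟩

/-- The parameter on the localisation. -/
theorem away_param {k B B' : Type} [Field k] [CommRing B] [CommRing B'] [Algebra B B'] (φ : k →+* B)
    (P : Ideal B) [P.IsPrime] (hP : ∀ b, ∃ a, b - φ a ∈ P) {f s : B} [IsLocalization.Away f B']
    (hf : f ∉ P) (h1 : ∀ b ∈ P, f * b ∈ Ideal.span {s}) (h2 : ∀ b, s * b = 0 → f * b = 0) :
    (∀ b, algebraMap B B' s * b = 0 → b = 0) ∧
      ∀ b : B', ∃ a c, b = algebraMap B B' (φ a) + algebraMap B B' s * c := by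
  have hu : IsUnit (algebraMap B B' f) := IsLocalization.Away.algebraMap_isUnit f
  constructor
  · intro b hb
    obtain ⟨⟨b0, u⟩, hb0⟩ := IsLocalization.surj (Submonoid.powers f) b
    simp only at hb0
    have h3 : algebraMap B B' (s * b0) = 0 := by
      rw [map_mul, ← hb0, ← mul_assoc, hb, zero_mul]
    obtain ⟨m, hm⟩ := (IsLocalization.map_eq_zero_iff (Submonoid.powers f) B' _).1 h3
    have h4 : f * (m * b0) = 0 := h2 _ (by rw [mul_left_comm]; exact hm)
    have h5 := congrArg (algebraMap B B') h4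
    rw [map_mul, map_mul, map_zero, ← hb0, hu.mul_right_eq_zero,
      (IsLocalization.map_units B' m).mul_right_eq_zero,
      (IsLocalization.map_units B' u).mul_left_eq_zero] at h5
    exact h5
  · have h3 : ∀ b ∈ P, algebraMap B B' b ∈ Ideal.span {algebraMap B B' s} := fun b hb => by
      have h := Ideal.mem_map_of_mem (algebraMap B B') (h1 b hb)
      rw [Ideal.map_span, Set.image_singleton, map_mul] at h
      exact (Ideal.unit_mul_mem_iff_mem _ hu).1 h
    intro b
    obtain ⟨⟨b0, u⟩, hb0⟩ := IsLocalization.surj (Submonoid.powers f) b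
    simp only at hb0
    obtain ⟨a, ha⟩ := hP b0
    obtain ⟨c, hc⟩ := hP u
    have hc0 : c ≠ 0 := by
      rintro rfl
      obtain ⟨n, hn⟩ := u.2
      rw [map_zero, sub_zero, ← hn] at hc
      exact hf (Ideal.IsPrime.mem_of_pow_mem inferInstance n hc)
    have h4 : b - algebraMap B B' (φ (a * c⁻¹)) ∈ Ideal.span {algebraMap B B' s} := by
      have e1 : algebraMap B B' (φ c⁻¹) * algebraMap B B' (φ c) = 1 := by
        rw [← map_mul, ← map_mul, inv_mul_cancel₀ hc0, map_one, map_one]
      have e2 : b - algebraMap B B' (φ (a * c⁻¹)) = algebraMap B B' (φ c⁻¹) *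
          (algebraMap B B' (b0 - φ a) - b * algebraMap B B' (u - φ c)) := by
        rw [map_sub, map_sub, ← hb0, map_mul, map_mul]
        linear_combination (-b) * e1
      rw [e2]
      exact Ideal.mul_mem_left _ _ (Ideal.sub_mem _ (h3 _ ha) (Ideal.mul_mem_left _ _ (h3 _ hc)))
    obtain ⟨d, hd⟩ := Ideal.mem_span_singleton'.1 h4
    exact ⟨a * c⁻¹, d, by linear_combination -hd⟩

/-- Colon ideals extend along flat maps. -/
theorem flat_colon {A B : Type} [CommRing A] [CommRing B] [Algebra A B] [Module.Flat A B]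
    {J M : Ideal A} {ε : A} (h : ∀ a, ε * a ∈ J → a ∈ M) {c : B}
    (hc : algebraMap A B ε * c ∈ J.map (algebraMap A B)) : c ∈ M.map (algebraMap A B) := by
  rw [← Submodule.restrictScalars_mem A, ← Ideal.smul_top_eq_map] at hc
  obtain ⟨T, hT, hsum⟩ := (Submodule.mem_ideal_smul_span_iff_exists_sum J (id : B → B)
    (algebraMap A B ε * c)).1 (by simpa using hc)
  have hrel : ∑ i : Option T.support, (i.elim ε fun b => -T b) • (i.elim c fun b => (b : B)) = 0 := by
    rw [Fintype.sum_option]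
    simp only [Option.elim, neg_smul, Finset.sum_neg_distrib]
    rw [Algebra.smul_def, ← hsum, Finsupp.sum, Finset.sum_coe_sort T.support fun b => T b • b]
    simp
  obtain ⟨n, a, y, hy, ha⟩ := Module.Flat.isTrivialRelation_of_sum_smul_eq_zero (R := A) (M := B)
    (f := fun i : Option T.support => i.elim ε fun b => -T b)
    (x := fun i : Option T.support => i.elim c fun b => (b : B)) hrel
  have h0 : c = ∑ j, a none j • y j := hy none
  rw [h0]
  refine Ideal.sum_mem _ fun j _ => ?_
  rw [Algebra.smul_def]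
  refine Ideal.mul_mem_right _ _ (Ideal.mem_map_of_mem _ (h _ ?_))
  have h1 := ha j
  rw [Fintype.sum_option] at h1
  simp only [Option.elim] at h1
  rw [eq_neg_of_add_eq_zero_left h1]
  exact J.neg_mem (Ideal.sum_mem _ fun b _ => J.mul_mem_right _ (J.neg_mem (hT b)))

/-- Devissage over an Artinian local ring. -/
theorem devissage {A B : Type} [CommRing A] [IsLocalRing A] [IsArtinianRing A] [CommRing B]
    (φ : A →+* B) (hφ : φ.Flat) (s : B)
    (h1 : ∀ a b, φ a - s * b ∈ (maximalIdeal A).map φ →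
      a ∈ maximalIdeal A ∧ b ∈ (maximalIdeal A).map φ) (a : A) (b : B) (hab : φ a = s * b) :
    a = 0 ∧ b = 0 := by
  algebraize [φ]
  obtain ⟨I, hI, hmin⟩ := WellFounded.has_min (wellFounded_lt (α := Ideal A))
    {I : Ideal A | ∀ a b, φ a - s * b ∈ I.map φ → a ∈ I ∧ b ∈ I.map φ} ⟨_, h1⟩
  by_cases h0 : I = ⊥
  · subst h0
    have := hI a b (by rw [hab, sub_self]; exact zero_mem _)
    simpa using this
  exfalso
  obtain ⟨J, -, hJ⟩ := exists_le_covBy_of_lt (bot_lt_iff_ne_bot.2 h0)
  obtain ⟨ε, hεI, hεJ⟩ := SetLike.exists_of_lt hJ.lt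
  have hsup : J ⊔ Ideal.span {ε} = I := by
    refine (hJ.eq_or_eq le_sup_left
      (sup_le hJ.le ((Ideal.span_singleton_le_iff_mem _).2 hεI))).resolve_left fun h => hεJ ?_
    exact h ▸ Ideal.mem_sup_right (Ideal.mem_span_singleton_self ε)
  have hmI : maximalIdeal A • I ≤ J := by
    rcases hJ.eq_or_eq (le_sup_left : J ≤ J ⊔ maximalIdeal A • I)
      (sup_le hJ.le Submodule.smul_le_right) with h | h
    · exact le_sup_right.trans h.le
    · exact absurd (Submodule.le_of_le_smul_of_le_jacobson_bot (IsNoetherian.noetherian I)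
        (jacobson_eq_maximalIdeal ⊥ bot_ne_top).ge h.ge) hJ.lt.not_ge
  have hcol : ∀ a, ε * a ∈ J → a ∈ maximalIdeal A := fun a ha => by
    by_contra hu
    exact hεJ ((Ideal.mul_unit_mem_iff_mem _ ((notMem_maximalIdeal).1 hu)).1 ha)
  refine hmin J (fun a b hab => ?_) hJ.lt
  obtain ⟨ha, hb⟩ := hI a b (Ideal.map_mono hJ.le hab)
  rw [← hsup, Ideal.map_sup, Ideal.map_span, Set.image_singleton] at hb
  rw [← hsup] at ha
  obtain ⟨j, hj, e, he, rfl⟩ := Submodule.mem_sup.1 ha
  obtain ⟨j', hj', e', he', rfl⟩ := Submodule.mem_sup.1 hb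
  obtain ⟨a', rfl⟩ := Ideal.mem_span_singleton'.1 he
  obtain ⟨c, rfl⟩ := Ideal.mem_span_singleton'.1 he'
  have h2 : algebraMap A B ε * (φ a' - s * c) ∈ J.map (algebraMap A B) := by
    have e1 : algebraMap A B ε * (φ a' - s * c) =
        (φ (j + a' * ε) - s * (j' + c * φ ε)) - φ j + s * j' := by
      rw [map_add, map_mul, show algebraMap A B ε = φ ε from rfl]
      ring
    rw [e1]
    exact Ideal.add_mem _ (Ideal.sub_mem _ hab (Ideal.mem_map_of_mem _ hj))
      (Ideal.mul_mem_left _ _ hj')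
  obtain ⟨h3, h4⟩ := h1 a' c (flat_colon hcol h2)
  refine ⟨J.add_mem hj (hmI (Submodule.smul_mem_smul h3 hεI)), Ideal.add_mem _ hj' ?_⟩
  have h5 := Ideal.mul_mem_mul h4 (Ideal.mem_map_of_mem φ hεI)
  rw [← Ideal.map_mul] at h5
  exact Ideal.map_mono hmI h5

/-- Nilpotent Nakayama. -/
theorem surj_of_nilpotent {A B : Type} [CommRing A] [CommRing B] (φ : A →+* B) (s : B)
    (M : Ideal A) (hM : IsNilpotent M) (h : ∀ b, ∃ a c, b - φ a - s * c ∈ M.map φ) (b : B) :
    ∃ a c, b = φ a + s * c := by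
  obtain ⟨n, hn⟩ := hM
  have key : ∀ (N : Ideal A) (b : B), b ∈ N.map φ → ∃ a c, b - φ a - s * c ∈ (N * M).map φ := by
    intro N b hb
    have : ∀ d : B, ∃ a c, d * b - φ a - s * c ∈ (N * M).map φ := by
      induction hb using Submodule.span_induction with
      | mem x hx =>
        obtain ⟨y, hy, rfl⟩ := hx
        intro d
        obtain ⟨a, c, hac⟩ := h d
        refine ⟨a * y, c * φ y, ?_⟩
        have := Ideal.mul_mem_mul (Ideal.mem_map_of_mem φ hy) hac
        rw [← Ideal.map_mul] at this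
        convert this using 1
        rw [map_mul]
        ring
      | zero => exact fun d => ⟨0, 0, by simp⟩
      | add x y _ _ hx hy =>
        intro d
        obtain ⟨a, c, h1⟩ := hx d
        obtain ⟨a', c', h2⟩ := hy d
        refine ⟨a + a', c + c', ?_⟩
        convert Ideal.add_mem _ h1 h2 using 1
        rw [map_add]
        ring
      | smul r x _ hx =>
        intro d
        obtain ⟨a, c, h1⟩ := hx (d * r)
        exact ⟨a, c, by rwa [smul_eq_mul, ← mul_assoc]⟩
    simpa using this 1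
  have ind : ∀ m : ℕ, ∃ a c, b - φ a - s * c ∈ (M ^ m).map φ := fun m => by
    induction m with
    | zero => exact ⟨0, 0, by simp [Ideal.map_top]⟩
    | succ m ih =>
      obtain ⟨a, c, h1⟩ := ih
      obtain ⟨a', c', h2⟩ := key _ _ h1
      refine ⟨a + a', c + c', ?_⟩
      rw [pow_succ]
      convert h2 using 1
      rw [map_add]
      ring
  obtain ⟨a, c, h1⟩ := ind n
  rw [hn, Ideal.zero_eq_bot, Ideal.map_bot, Ideal.mem_bot] at h1
  exact ⟨a, c, by linear_combination h1⟩

theorem bij_of {A B : Type} [CommRing A] [CommRing B] (φ : A →+* B) (s : B)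
    (h1 : ∀ a b, φ a = s * b → a = 0) (h2 : ∀ b, ∃ a c, b = φ a + s * c) :
    Function.Bijective ((Ideal.Quotient.mk (Ideal.span {s})).comp φ) := by
  constructor
  · rw [injective_iff_map_eq_zero]
    intro a ha
    obtain ⟨b, hb⟩ := Ideal.mem_span_singleton'.1 (Ideal.Quotient.eq_zero_iff_mem.1 ha)
    exact h1 a b (by rw [← hb, mul_comm])
  · intro z
    obtain ⟨b, rfl⟩ := Ideal.Quotient.mk_surjective z
    obtain ⟨a, c, rfl⟩ := h2 b
    refine ⟨a, Ideal.Quotient.eq.2 ?_⟩
    rw [show φ a - (φ a + s * c) = -c * s by ring]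
    exact Ideal.mul_mem_left _ _ (Ideal.mem_span_singleton_self s)

/-- At most one prime contains `s`. -/
theorem prime_eq {A B : Type} [CommRing A] [CommRing B] (φ : A →+* B) (s : B)
    (hA : ∀ a : A, IsUnit a ∨ IsNilpotent a) (h2 : ∀ b, ∃ a c, b = φ a + s * c)
    (P Q : Ideal B) [P.IsPrime] [Q.IsPrime] (hP : s ∈ P) (hQ : s ∈ Q) : P ≤ Q := by
  intro b hb
  obtain ⟨a, c, rfl⟩ := h2 b
  rcases hA a with h | h
  · have : φ a ∈ P := (Ideal.add_mem_iff_left _ (P.mul_mem_right c hP)).1 hb
    exact absurd (P.eq_top_of_isUnit_mem this (h.map φ)) (Ideal.IsPrime.ne_top inferInstance)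
  · obtain ⟨n, hn⟩ := h.map φ
    exact Q.add_mem (Ideal.IsPrime.mem_of_pow_mem inferInstance n (hn ▸ Q.zero_mem))
      (Q.mul_mem_right c hQ)

end Pool.Agent.MP_52bf41_ag.H24
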