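import Pool.Agent.MP_52bf41_ag.H12.Spec
import Pool.Agent.MP_52bf41_ag.H12.Thick
import Pool.Agent.MP_52bf41_ag.H24.LPAlg

/-! Local parameters at smooth points of a flat family over an Artinian local ring. -/

open AlgebraicGeometry CategoryTheory Limits IsLocalRing

namespace Pool.Agent.MP_52bf41_ag.H24

open H12

theorem mem_basicOpen_iff {C : Scheme.{0}} {U : C.Opens} (hU : IsAffineOpen U) {x : C}
    (hx : x ∈ U) (b : Γ(C, U)) :
    x ∈ C.basicOpen b ↔ b ∉ (hU.primeIdealOf ⟨x, hx⟩).asIdeal := by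
  let _ : Algebra Γ(C, U) (C.presheaf.stalk x) := (C.presheaf.germ U x hx).hom.toAlgebra
  have : IsLocalization.AtPrime (C.presheaf.stalk x) (hU.primeIdealOf ⟨x, hx⟩).asIdeal :=
    hU.isLocalization_stalk ⟨x, hx⟩
  rw [C.mem_basicOpen b x hx]
  exact IsLocalization.AtPrime.isUnit_to_map_iff (C.presheaf.stalk x)
    (hU.primeIdealOf ⟨x, hx⟩).asIdeal b

theorem isUnit_or_isNilpotent {A : Type} [CommRing A] [IsLocalRing A] [IsArtinianRing A] (a : A) :
    IsUnit a ∨ IsNilpotent a :=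
  (em (IsUnit a)).imp_right isNilpotent_of_not_isUnit

theorem isNilpotent_max (A : Type) [CommRing A] [IsLocalRing A] [IsArtinianRing A] :
    IsNilpotent (maximalIdeal A) := by
  have h := IsArtinianRing.isNilpotent_jacobson_bot (R := A)
  rwa [jacobson_eq_maximalIdeal ⊥ bot_ne_top] at h

/-- Algebraic criterion for a local parameter. -/
theorem par_of {A : Type} [CommRing A] [IsLocalRing A] [IsArtinianRing A] {C : Scheme.{0}}
    (p : C ⟶ Spec (.of A)) {x : C} {U : C.Opens} (hU : IsAffineOpen U) (hx : x ∈ U) {s : Γ(C, U)}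
    (hs : x ∉ C.basicOpen s) (h1 : ∀ a b, alg p U a = s * b → a = 0 ∧ b = 0)
    (h2 : ∀ b, ∃ a c, b = alg p U a + s * c) : Par p x U s := by
  refine ⟨hU, hx, fun y => ⟨fun hy => ⟨C.basicOpen_le s hy, fun e => hs (e ▸ hy)⟩, ?_⟩, ?_,
    bij_of _ s (fun a b h => (h1 a b h).1) h2⟩
  · rintro ⟨hyU, hne⟩
    by_contra hy
    rw [mem_basicOpen_iff hU hyU, not_not] at hy
    rw [mem_basicOpen_iff hU hx, not_not] at hs
    have e : hU.primeIdealOf ⟨y, hyU⟩ = hU.primeIdealOf ⟨x, hx⟩ := PrimeSpectrum.ext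
      (le_antisymm (prime_eq _ s isUnit_or_isNilpotent h2 _ _ hy hs)
        (prime_eq _ s isUnit_or_isNilpotent h2 _ _ hs hy))
    have e1 := hU.fromSpec_primeIdealOf ⟨y, hyU⟩
    rw [e, hU.fromSpec_primeIdealOf ⟨x, hx⟩] at e1
    exact hne e1.symm
  · rw [mem_nonZeroDivisors_iff_left]
    exact fun b hb => (h1 0 b (by rw [map_zero, hb])).2

/-- The parameter on the closed fibre. -/
theorem fibre_param {k : Type} [Field k] [IsAlgClosed k] {C : Scheme.{0}} (p : C ⟶ Spec (.of k))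
    {x : C} (hx : LocType (PowerSeries k) C x) {W : C.Opens} (hW : IsAffineOpen W) (hxW : x ∈ W)
    (hft : (alg p W).FiniteType) :
    ∃ f s : Γ(C, W), x ∈ C.basicOpen f ∧ x ∉ C.basicOpen s ∧
      ∀ (V : C.Opens) (h : V ≤ W), V = C.basicOpen f →
        (∀ b, res h s * b = 0 → b = 0) ∧ ∀ b, ∃ a c, b = alg p V a + res h s * c := by
  have hN : IsNoetherianRing Γ(C, W) := by
    algebraize [alg p W]
    exact Algebra.FiniteType.isNoetherianRing k _
  let _ : Algebra Γ(C, W) (C.presheaf.stalk x) := (C.presheaf.germ W x hxW).hom.toAlgebra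
  have hloc : IsLocalization.AtPrime (C.presheaf.stalk x) (hW.primeIdealOf ⟨x, hxW⟩).asIdeal :=
    hW.isLocalization_stalk ⟨x, hxW⟩
  have hmax := hW.primeIdealOf_isMaximal_of_isClosed ⟨x, hxW⟩ hx.1
  have hN' : IsNoetherianRing (C.presheaf.stalk x) :=
    IsLocalization.isNoetherianRing (hW.primeIdealOf ⟨x, hxW⟩).asIdeal.primeCompl
      (C.presheaf.stalk x) hN
  obtain ⟨e⟩ := hx.2
  obtain ⟨hdom, t, ht0, ht⟩ := dvr_of_completion e
  obtain ⟨f, s, hf, hs, h1, h2⟩ := spread (O := C.presheaf.stalk x)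
    (hW.primeIdealOf ⟨x, hxW⟩).asIdeal ht0 ht
  refine ⟨f, s, (mem_basicOpen_iff hW hxW f).2 hf, fun h => (mem_basicOpen_iff hW hxW s).1 h hs,
    fun V h hV => ?_⟩
  have ha := isAway_res hW f h hV
  let _ := (res h).toAlgebra
  have : IsLocalization.Away f Γ(C, V) := ha
  obtain ⟨h3, h4⟩ := away_param (B' := Γ(C, V)) (alg p W) (hW.primeIdealOf ⟨x, hxW⟩).asIdeal
    (exists_const (alg p W) hft _) hf h1 h2
  refine ⟨h3, fun b => ?_⟩
  obtain ⟨a, c, hb⟩ := h4 b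
  exact ⟨a, c, by rw [hb, ← res_alg p h]; rfl⟩

theorem lp : SLP := by
  intro A _ _ _ _ F F0 j _ _ hc x hx N hN
  have hp := hc.1
  obtain ⟨W, hW, hxW, hWN⟩ := exists_isAffineOpen_mem_and_subset hN
  have hW0 := isAffineOpen_preimage hp hW
  have hft0 : LocallyOfFiniteType F0.π := MorphismProperty.of_isPullback hp inferInstance
  obtain ⟨f0, s0, hf0, hs0, h0⟩ := fibre_param F0.π hx hW0 hxW (finiteType_alg hW0)
  obtain ⟨hsurj, -⟩ := surj_ker_preimage hp residue_surjective hW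
  obtain ⟨f, rfl⟩ := hsurj f0
  obtain ⟨s, rfl⟩ := hsurj s0
  have hUW : F.C.basicOpen f ≤ W := F.C.basicOpen_le f
  have hU : IsAffineOpen (F.C.basicOpen f) := hW.basicOpen f
  have hV : j ⁻¹ᵁ F.C.basicOpen f = F0.C.basicOpen (pl j (le_rfl : j ⁻¹ᵁ W ≤ _) f) := by
    rw [basicOpen_pl, inf_eq_right.2 (j.preimage_mono hUW)]
  obtain ⟨h1, h2⟩ := h0 (j ⁻¹ᵁ F.C.basicOpen f) (j.preimage_mono hUW) hV
  have hxU : x ∈ j ⁻¹ᵁ F.C.basicOpen f := hV ▸ hf0
  obtain ⟨hsurj', hker⟩ := surj_ker_preimage hp residue_surjective hU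
  rw [ker_residue] at hker
  have hs : pl j (le_rfl : j ⁻¹ᵁ F.C.basicOpen f ≤ _) (res hUW s) =
      res (j.preimage_mono hUW) (pl j (le_rfl : j ⁻¹ᵁ W ≤ _) s) := by
    rw [pl_res, res_pl]
  have hw : ∀ a, pl j (le_rfl : j ⁻¹ᵁ F.C.basicOpen f ≤ _) (alg F.π _ a) =
      alg F0.π _ (residue A a) := fun a => by
    rw [pl_alg, hp.w, alg_spec]
  have hxs : x ∉ F0.C.basicOpen (pl j (le_rfl : j ⁻¹ᵁ F.C.basicOpen f ≤ _) (res hUW s)) := by
    rw [hs, mem_basicOpen_res _ _ hxU]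
    exact hs0
  refine ⟨F.C.basicOpen f, hUW.trans hWN, res hUW s, par_of F.π hU hxU (fun h => hxs ?_)
    (devissage _ (flat_alg hU) _ fun a b hab => ?_)
    (surj_of_nilpotent _ _ _ (isNilpotent_max A) fun b => ?_)⟩
  · rw [basicOpen_pl]
    exact ⟨hxU, h⟩
  · rw [← hker, map_sub, map_mul, hw, sub_eq_zero] at hab
    have ha : a ∈ maximalIdeal A := by
      by_contra hu
      have hu' : IsUnit (alg F0.π (j ⁻¹ᵁ F.C.basicOpen f) (residue A a)) :=
        (((notMem_maximalIdeal).1 hu).map _).map _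
      rw [hab] at hu'
      exact hxs ((basicOpen_of_isUnit (isUnit_of_mul_isUnit_left hu')).ge hxU)
    refine ⟨ha, (hker b).1 (h1 _ ?_)⟩
    rw [← hs, ← hab, (residue_eq_zero_iff a).2 ha, map_zero]
  · obtain ⟨a0, c0, h⟩ := h2 (pl j (le_rfl : j ⁻¹ᵁ F.C.basicOpen f ≤ _) b)
    obtain ⟨a, rfl⟩ := residue_surjective a0
    obtain ⟨c, rfl⟩ := hsurj' c0
    refine ⟨a, c, (hker _).1 ?_⟩
    rw [map_sub, map_sub, map_mul, hw, hs, h]
    ring

theorem parSec : SParSec := by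
  intro A _ _ _ C p U s τ h hτ hP
  have hx : τ (closedPoint A) ∉ C.basicOpen s := fun h' => ((hP.zero _).1 h').2 rfl
  have ha : IsNilpotent (ev τ h s) :=
    isNilpotent_of_not_isUnit fun hu => hx ((isUnit_ev_iff τ h s).1 hu)
  have h0 : ev τ h (s - alg p U (ev τ h s)) = 0 := by rw [map_sub, ev_alg τ hτ, sub_self]
  refine ⟨s - alg p U (ev τ h s), par_of p hP.aff hP.mem (fun h' => ?_) (fun a b hab => ?_)
    (surj_of_nilpotent _ _ (Ideal.span {ev τ h s}) ?_ fun b => ?_), h0⟩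
  · have := (isUnit_ev_iff τ h _).2 h'
    rw [h0] at this
    exact not_isUnit_zero this
  · have e := congrArg (ev τ h) hab
    rw [ev_alg τ hτ, map_mul, h0, zero_mul] at e
    refine ⟨e, ?_⟩
    rw [e, map_zero, eq_comm, sub_mul, sub_eq_zero] at hab
    obtain ⟨n, hn⟩ := ha.map (alg p U)
    have key : ∀ m : ℕ, s ^ m * b = alg p U (ev τ h s) ^ m * b := fun m => by
      induction m with
      | zero => simp
      | succ m ih =>
        rw [pow_succ, mul_assoc, hab, mul_left_comm, ih]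
        ring
    have h1 := key n
    rw [hn, zero_mul] at h1
    exact (mem_nonZeroDivisors_iff_left.1 (pow_mem hP.reg n)) b h1
  · obtain ⟨n, hn⟩ := ha
    exact ⟨n, by rw [Ideal.span_singleton_pow, hn]; simp⟩
  · obtain ⟨a, ha'⟩ := hP.bij.2 (Ideal.Quotient.mk _ b)
    obtain ⟨c, hc⟩ := Ideal.mem_span_singleton'.1 (Ideal.Quotient.eq.1 ha'.symm)
    refine ⟨a, c, ?_⟩
    rw [Ideal.map_span, Set.image_singleton, ← hc]
    exact Ideal.mem_span_singleton'.2 ⟨c, by ring⟩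

end Pool.Agent.MP_52bf41_ag.H24
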